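import Mathlib

set_option autoImplicit false
set_option linter.unusedSectionVars false

/-!
# Support functions of centrally symmetric compact convex sets as seminorms
-/

namespace Pool.Agent.T2H83.Zon

open MeasureTheory
open scoped InnerProductSpace

variable {E : Type*} [NormedAddCommGroup E] [InnerProductSpace ℝ E]

/-- the support function of `A` -/
noncomputable def supp (A : Set E) (v : E) : ℝ := sSup ((fun a => ⟪v, a⟫_ℝ) '' A)

theorem isGreatest_supp {A : Set E} (hne : A.Nonempty) (hc : IsCompact A) (v : E) :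
    IsGreatest ((fun a => ⟪v, a⟫_ℝ) '' A) (supp A v) :=
  (hc.image (by fun_prop)).isGreatest_sSup (hne.image _)

theorem le_supp {A : Set E} (hc : IsCompact A) (v : E) {a : E} (ha : a ∈ A) :
    ⟪v, a⟫_ℝ ≤ supp A v :=
  (isGreatest_supp ⟨a, ha⟩ hc v).2 ⟨a, ha, rfl⟩

theorem exists_supp {A : Set E} (hne : A.Nonempty) (hc : IsCompact A) (v : E) :
    ∃ a ∈ A, ⟪v, a⟫_ℝ = supp A v :=
  (isGreatest_supp hne hc v).1

theorem supp_le {A : Set E} (hne : A.Nonempty) (hc : IsCompact A) {v : E} {c : ℝ}
    (h : ∀ a ∈ A, ⟪v, a⟫_ℝ ≤ c) : supp A v ≤ c := by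
  obtain ⟨a, ha, h1⟩ := exists_supp hne hc v
  rw [← h1]
  exact h a ha

/-- the support function of a nonempty symmetric compact set is a seminorm -/
noncomputable def sem (A : Set E) (hne : A.Nonempty) (hc : IsCompact A) (hs : ∀ x ∈ A, -x ∈ A) :
    Seminorm ℝ E :=
  Seminorm.of (supp A)
    (fun v w => by
      refine supp_le hne hc fun a ha => ?_
      rw [inner_add_left]
      exact add_le_add (le_supp hc v ha) (le_supp hc w ha))
    (fun c v => by
      have h0 : ∀ v : E, supp A (-v) = supp A v := by
        have key : ∀ v : E, supp A (-v) ≤ supp A v := by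
          intro v
          refine supp_le hne hc fun a ha => ?_
          rw [inner_neg_left, ← inner_neg_right]
          exact le_supp hc v (hs a ha)
        intro v
        refine le_antisymm (key v) ?_
        have := key (-v)
        rwa [neg_neg] at this
      have h1 : ∀ c : ℝ, 0 ≤ c → ∀ v : E, supp A (c • v) = c * supp A v := by
        intro c hc0 v
        apply le_antisymm
        · refine supp_le hne hc fun a ha => ?_
          rw [real_inner_smul_left]
          exact mul_le_mul_of_nonneg_left (le_supp hc v ha) hc0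
        · obtain ⟨a, ha, h2⟩ := exists_supp hne hc v
          rw [← h2, ← real_inner_smul_left]
          exact le_supp hc _ ha
      rcases le_total 0 c with h | h
      · rw [h1 c h v, Real.norm_of_nonneg h]
      · rw [Real.norm_of_nonpos h, ← h1 (-c) (neg_nonneg.mpr h) v, neg_smul, h0])

theorem sem_apply (A : Set E) (hne : A.Nonempty) (hc : IsCompact A) (hs : ∀ x ∈ A, -x ∈ A)
    (v : E) : sem A hne hc hs v = supp A v := rfl

variable [FiniteDimensional ℝ E]

theorem sem_continuous (A : Set E) (hne : A.Nonempty) (hc : IsCompact A)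
    (hs : ∀ x ∈ A, -x ∈ A) : Continuous (sem A hne hc hs) := by
  obtain ⟨R, hR⟩ := hc.isBounded.exists_norm_le
  refine Seminorm.continuous_of_le (q := ‖R‖₊ • normSeminorm ℝ E) ?_ ?_
  · have h1 : Continuous fun v : E => ‖R‖ * ‖v‖ := by fun_prop
    refine h1.congr fun v => ?_
    rfl
  · intro v
    show supp A v ≤ ‖R‖ * ‖v‖
    refine supp_le hne hc fun a ha => ?_
    calc ⟪v, a⟫_ℝ ≤ ‖v‖ * ‖a‖ := real_inner_le_norm _ _
      _ ≤ ‖v‖ * ‖R‖ := by
          gcongr
          exact (hR a ha).trans (Real.le_norm_self R)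
      _ = ‖R‖ * ‖v‖ := mul_comm _ _

/-- the seminorm vanishes on the orthogonal complement of the span -/
theorem sem_vanish (A : Set E) (hne : A.Nonempty) (hc : IsCompact A)
    (hs : ∀ x ∈ A, -x ∈ A) (n : ℕ) (hn : Module.finrank ℝ (Submodule.span ℝ A) ≤ n) :
    ∃ W : Submodule ℝ E, (∀ w ∈ W, sem A hne hc hs w = 0) ∧
      Module.finrank ℝ E ≤ Module.finrank ℝ W + n := by
  refine ⟨(Submodule.span ℝ A)ᗮ, fun w hw => ?_, ?_⟩
  · rw [sem_apply]
    obtain ⟨a, ha, h1⟩ := exists_supp hne hc w
    rw [← h1]
    exact Submodule.inner_left_of_mem_orthogonal (Submodule.subset_span ha) hw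
  · have := Submodule.finrank_add_finrank_orthogonal (Submodule.span ℝ A)
    omega

end Pool.Agent.T2H83.Zon
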