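import Mathlib
import Pool.Agent.Results.MP_eba1ef_gt.NoAlmostEllOne
import Pool.Agent.H985.Sep

set_option autoImplicit false

/-!
# MP_5e7226_co: centrally symmetric bodies without almost cubical projections

Let `K` be a convex body in `ℝ^d`, centrally symmetric about its interior point `o`, and let `n ≥ 2`
and `ρ < n`.  Suppose that for every linear map `F = (⟪v 1, ·⟫, …, ⟪v n, ·⟫)` to `ℝ^n` which maps
`K - o` into the cube `[-1, 1]^n` there is a vertex `s` of the cube which is far from `F (K - o)` in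
the sense that `∑ s i ⟪v i, y - o⟫ ≤ ρ` for all `y ∈ K`.  (So no `n`-dimensional projection of `K` is
almost a parallelotope.  For `n = 2` this is the uniform non-squareness of the normed space with the
unit ball `K - o`, or of its dual space.)  Then the faces of `K` can be separated from `o` by at most
`1 + 16 d log(4d+1) 2^d exp(-(n-ρ)d/(n 2^(n+1)))` hyperplanes, and by less than `2^d` hyperplanes as
soon as `(n-ρ) d ≥ n 2^(n+1) log(32 d log(4d+1))`, hence in all sufficiently high dimensions for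
given `n` and `ρ`.  The cross-bodies, for which `2^d` hyperplanes are needed, do not satisfy the
hypothesis for any `n ≤ log₂ d`.

The proof.  The hypothesis says that every `n` vectors of the polar body `P` of `K` with respect to
`o` have a signed sum in `ρ P`.  So the covering theorem `MP_eba1ef_gt.NoAlmostEllOne` of the starting
files applies to `P`, and every translate of the interior of `P` gives a separating hyperplane
(`Pool/Agent/H985/Sep.lean`).
-/

namespace Pool.Agent.T2H83.Zon.NoAlmostCubicalProjection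

open scoped InnerProductSpace Pointwise
open Filter

/-- `K` and `o` are separated by `H`: every face of `K` (the set of the points of `K` at which a
functional `⟪u, ·⟫`, `u ≠ 0`, is maximal on `K`) is strictly separated from `o` by one of the
hyperplanes `{x | ⟪h.1, x⟫ = h.2}` with `h ∈ H`. -/
def SeparatesFaces {d : ℕ} (K : Set (EuclideanSpace ℝ (Fin d))) (o : EuclideanSpace ℝ (Fin d))
    (H : Finset (EuclideanSpace ℝ (Fin d) × ℝ)) : Prop :=
  (∀ h ∈ H, h.1 ≠ 0) ∧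
    ∀ u x₀ : EuclideanSpace ℝ (Fin d), u ≠ 0 → x₀ ∈ K → (∀ y ∈ K, ⟪u, y⟫_ℝ ≤ ⟪u, x₀⟫_ℝ) →
      ∃ h ∈ H, ⟪h.1, o⟫_ℝ < h.2 ∧ ∀ x ∈ K, ⟪u, x⟫_ℝ = ⟪u, x₀⟫_ℝ → h.2 < ⟪h.1, x⟫_ℝ

/-- For all functionals `v 1, …, v n` with values at most `1` on `K - o` there is a sign vector `s`
such that `∑ s i ⟪v i, y - o⟫ ≤ ρ` for all `y ∈ K`. -/
def NoAlmostCube {d : ℕ} (n : ℕ) (ρ : ℝ) (K : Set (EuclideanSpace ℝ (Fin d)))
    (o : EuclideanSpace ℝ (Fin d)) : Prop :=
  ∀ v : Fin n → EuclideanSpace ℝ (Fin d), (∀ i, ∀ y ∈ K, ⟪v i, y - o⟫_ℝ ≤ 1) →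
    ∃ s : Fin n → ℝ, (∀ i, s i = 1 ∨ s i = -1) ∧ ∀ y ∈ K, ∑ i, s i * ⟪v i, y - o⟫_ℝ ≤ ρ

/-- the logarithmic condition is satisfied in high dimensions -/
theorem exists_dim (n : ℕ) (ρ : ℝ) (hρ : ρ < n) : ∃ d₀ : ℕ, ∀ d : ℕ, d₀ ≤ d →
    n * 2 ^ (n + 1) * Real.log (32 * d * Real.log (4 * d + 1)) ≤ (n - ρ) * d := by
  have hc : 0 < (n : ℝ) - ρ := by linarith
  set C : ℝ := n * 2 ^ (n + 1) with hC
  have hC0 : 0 ≤ C := by positivity
  have h1 : ∀ᶠ x : ℝ in atTop, ‖Real.log x‖ ≤ ((n - ρ) / (3 * (C + 1))) * ‖x‖ :=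
    Real.isLittleO_log_id_atTop.bound (by positivity)
  have h2 : ∀ᶠ x : ℝ in atTop, 256 ≤ x := eventually_ge_atTop _
  have h3 : ∀ᶠ d : ℕ in atTop, ‖Real.log (d : ℝ)‖ ≤ ((n - ρ) / (3 * (C + 1))) * ‖(d : ℝ)‖ ∧
      (256 : ℝ) ≤ d := tendsto_natCast_atTop_atTop.eventually (h1.and h2)
  obtain ⟨d₀, hd₀⟩ := h3.exists_forall_of_atTop
  refine ⟨d₀, fun d hd => ?_⟩
  obtain ⟨h4, h5⟩ := hd₀ d hd
  have hd0 : (0 : ℝ) < d := by linarith
  have hlog0 : 0 ≤ Real.log d := Real.log_nonneg (by linarith)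
  rw [Real.norm_of_nonneg hlog0, Real.norm_of_nonneg hd0.le] at h4
  have h6 : 32 * (d : ℝ) * Real.log (4 * d + 1) ≤ (d : ℝ) ^ 3 := by
    have h7 : Real.log (4 * (d : ℝ) + 1) ≤ 4 * d := by
      have := Real.log_le_sub_one_of_pos (show 0 < 4 * (d : ℝ) + 1 by linarith)
      linarith
    have h8 : 32 * (d : ℝ) * Real.log (4 * d + 1) ≤ 32 * d * (4 * d) := by gcongr
    have h9 : 0 ≤ (d : ℝ) ^ 2 * (d - 128) := mul_nonneg (sq_nonneg _) (by linarith)
    linarith
  have h7 : 0 < 32 * (d : ℝ) * Real.log (4 * d + 1) := by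
    have : 0 < Real.log (4 * (d : ℝ) + 1) := Real.log_pos (by linarith)
    positivity
  have h8 : Real.log (32 * d * Real.log (4 * d + 1)) ≤ 3 * Real.log d := by
    calc Real.log (32 * d * Real.log (4 * d + 1)) ≤ Real.log ((d : ℝ) ^ 3) := Real.log_le_log h7 h6
      _ = 3 * Real.log d := by rw [Real.log_pow]; norm_num
  calc C * Real.log (32 * d * Real.log (4 * d + 1)) ≤ C * (3 * Real.log d) := by gcongr
    _ ≤ C * (3 * (((n - ρ) / (3 * (C + 1))) * d)) := by gcongr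
    _ = (C / (C + 1)) * ((n - ρ) * d) := by field_simp
    _ ≤ 1 * ((n - ρ) * d) := by
        have : C / (C + 1) ≤ 1 := by
          rw [div_le_one (by positivity)]
          linarith
        gcongr
    _ = (n - ρ) * d := one_mul _

/-- **Main theorem.** (1) The quantitative bound; (2) for given `n` and `ρ < n` fewer than `2 ^ d`
hyperplanes suffice in all sufficiently high dimensions. -/
theorem result :
    (∀ d n : ℕ, 2 ≤ d → 2 ≤ n → 2 * n ≤ d + 4 → ∀ ρ : ℝ, 0 < ρ → ρ ≤ n →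
      ∀ (K : Set (EuclideanSpace ℝ (Fin d))) (o : EuclideanSpace ℝ (Fin d)),
      Convex ℝ K → IsCompact K → o ∈ interior K → (∀ x ∈ K, o + o - x ∈ K) →
      NoAlmostCube n ρ K o →
      ∃ H : Finset (EuclideanSpace ℝ (Fin d) × ℝ), SeparatesFaces K o H ∧
        (H.card : ℝ) ≤ 1 + 16 * d * Real.log (4 * d + 1) * 2 ^ d
          * Real.exp (-((n - ρ) * d / (n * 2 ^ (n + 1)))) ∧
        (n * 2 ^ (n + 1) * Real.log (32 * d * Real.log (4 * d + 1)) ≤ (n - ρ) * d →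
          H.card < 2 ^ d)) ∧
    (∀ n : ℕ, 2 ≤ n → ∀ ρ : ℝ, 0 < ρ → ρ < n → ∃ d₀ : ℕ, ∀ d : ℕ, d₀ ≤ d →
      ∀ (K : Set (EuclideanSpace ℝ (Fin d))) (o : EuclideanSpace ℝ (Fin d)),
      Convex ℝ K → IsCompact K → o ∈ interior K → (∀ x ∈ K, o + o - x ∈ K) →
      NoAlmostCube n ρ K o →
      ∃ H : Finset (EuclideanSpace ℝ (Fin d) × ℝ), SeparatesFaces K o H ∧ H.card < 2 ^ d) := by
  have main : ∀ d n : ℕ, 2 ≤ d → 2 ≤ n → 2 * n ≤ d + 4 → ∀ ρ : ℝ, 0 < ρ → ρ ≤ n →
      ∀ (K : Set (EuclideanSpace ℝ (Fin d))) (o : EuclideanSpace ℝ (Fin d)),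
      IsCompact K → o ∈ interior K → (∀ x ∈ K, o + o - x ∈ K) →
      NoAlmostCube n ρ K o →
      ∃ H : Finset (EuclideanSpace ℝ (Fin d) × ℝ), SeparatesFaces K o H ∧
        (H.card : ℝ) ≤ 1 + 16 * d * Real.log (4 * d + 1) * 2 ^ d
          * Real.exp (-((n - ρ) * d / (n * 2 ^ (n + 1)))) ∧
        (n * 2 ^ (n + 1) * Real.log (32 * d * Real.log (4 * d + 1)) ≤ (n - ρ) * d →
          H.card < 2 ^ d) := by
    intro d n hd hn hnd ρ hρ0 hρn K o hKc ho hsym hK
    have hPs : ∀ v ∈ H985.Sep.polar K o, -v ∈ H985.Sep.polar K o := by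
      intro v hv y hy
      have h1 := hv _ (hsym y hy)
      have e : o + o - y - o = -(y - o) := by abel
      rw [e, inner_neg_right] at h1
      rw [inner_neg_left]
      exact h1
    obtain ⟨T, h1, h2, -⟩ := MP_eba1ef_gt.NoAlmostEllOne.result d hd (H985.Sep.polar K o)
      (H985.Sep.convex_polar K o) (H985.Sep.isCompact_polar ho)
      (H985.Sep.interior_polar_nonempty hKc ho) hPs n hn hnd ρ hρ0.le hρn (by
        intro v hv
        obtain ⟨s, hs1, hs2⟩ := hK v hv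
        refine ⟨s, hs1, ?_⟩
        rw [Set.mem_smul_set_iff_inv_smul_mem₀ hρ0.ne']
        intro y hy
        rw [real_inner_smul_left, sum_inner]
        have h3 : ∑ i, ⟪s i • v i, y - o⟫_ℝ ≤ ρ := by
          refine le_trans (le_of_eq ?_) (hs2 y hy)
          exact Finset.sum_congr rfl fun i _ => real_inner_smul_left _ _ _
        calc ρ⁻¹ * ∑ i, ⟪s i • v i, y - o⟫_ℝ ≤ ρ⁻¹ * ρ := by gcongr
          _ = 1 := inv_mul_cancel₀ hρ0.ne')
    obtain ⟨H, h4, h5, h6⟩ := H985.Sep.separate ho T h1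
    refine ⟨H, ⟨h5, h6⟩, le_trans (by exact_mod_cast h4) h2, fun hcond => h4.trans_lt ?_⟩
    have hd' : (2 : ℝ) ≤ d := by exact_mod_cast hd
    have hn' : (2 : ℝ) ≤ n := by exact_mod_cast hn
    have hlogpos : 1 ≤ Real.log (4 * d + 1) := by
      rw [Real.le_log_iff_exp_le (by linarith)]
      have := Real.exp_one_lt_d9
      linarith
    set L : ℝ := 32 * d * Real.log (4 * d + 1) with hL
    have hL0 : 0 < L := by
      have : 0 < Real.log (4 * (d : ℝ) + 1) := by linarith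
      positivity
    have hexp : Real.exp (-((n - ρ) * d / (n * 2 ^ (n + 1)))) ≤ L⁻¹ := by
      rw [← Real.exp_log (inv_pos.mpr hL0), Real.exp_le_exp, Real.log_inv, neg_le_neg_iff,
        le_div_iff₀ (by positivity)]
      linarith
    have hle : (T.card : ℝ) ≤ 1 + 2 ^ d / 2 := by
      refine h2.trans ?_
      have h0 : 0 ≤ 16 * d * Real.log (4 * d + 1) * 2 ^ d := by
        have : 0 ≤ Real.log (4 * (d : ℝ) + 1) := by linarith
        positivity
      calc 1 + 16 * d * Real.log (4 * d + 1) * 2 ^ d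
            * Real.exp (-((n - ρ) * d / (n * 2 ^ (n + 1))))
          ≤ 1 + 16 * d * Real.log (4 * d + 1) * 2 ^ d * L⁻¹ := by gcongr
        _ = 1 + (L * L⁻¹) * 2 ^ d / 2 := by rw [hL]; ring
        _ = 1 + 2 ^ d / 2 := by rw [mul_inv_cancel₀ hL0.ne', one_mul]
    have h7 : (4 : ℝ) ≤ 2 ^ d := by
      calc (4 : ℝ) = 2 ^ 2 := by norm_num
        _ ≤ 2 ^ d := pow_le_pow_right₀ (by norm_num) hd
    have h8 : (T.card : ℝ) < ((2 ^ d : ℕ) : ℝ) := by
      push_cast
      linarith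
    exact_mod_cast h8
  refine ⟨fun d n hd hn hnd ρ hρ0 hρn K o _ hKc ho hsym hK =>
    main d n hd hn hnd ρ hρ0 hρn K o hKc ho hsym hK, fun n hn ρ hρ0 hρn => ?_⟩
  obtain ⟨d₀, hd₀⟩ := exists_dim n ρ hρn
  refine ⟨max d₀ (2 * n), fun d hd K o _ hKc ho hsym hK => ?_⟩
  have h1 : d₀ ≤ d := le_trans (le_max_left _ _) hd
  have h2 : 2 * n ≤ d := le_trans (le_max_right _ _) hd
  obtain ⟨H, h3, -, h4⟩ := main d n (by omega) hn (by omega) ρ hρ0 hρn.le K o hKc ho hsym hK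
  exact ⟨H, h3, h4 (hd₀ d h1)⟩

end Pool.Agent.T2H83.Zon.NoAlmostCubicalProjection
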