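import Pool.Agent.H985.Sep

set_option autoImplicit false
set_option linter.unusedSectionVars false

/-!
# The bipolar theorem and the gauge of the polar body
-/

namespace Pool.Agent.T2H83.Polar

open scoped InnerProductSpace
open Metric Pool.Agent.H985.Sep

variable {E : Type*} [NormedAddCommGroup E] [InnerProductSpace ℝ E] [FiniteDimensional ℝ E]

/-- `0` is an interior point of the polar body -/
theorem zero_mem_interior {K : Set E} {o : E} (hKc : IsCompact K) (ho : o ∈ interior K) :
    (0 : E) ∈ interior (polar K o) := by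
  obtain ⟨R, hR⟩ : ∃ R : ℝ, ∀ y ∈ K, ‖y - o‖ ≤ R := by
    obtain ⟨R, hR⟩ := hKc.isBounded.subset_closedBall o
    exact ⟨R, fun y hy => by simpa [dist_eq_norm] using hR hy⟩
  have hR0 : 0 ≤ R := (norm_nonneg _).trans (hR o (interior_subset ho))
  rw [mem_interior]
  refine ⟨ball 0 (1 / (R + 1)), ?_, isOpen_ball, by simp; positivity⟩
  intro v hv y hy
  rw [mem_ball_zero_iff] at hv
  calc ⟪v, y - o⟫_ℝ ≤ ‖v‖ * ‖y - o‖ := real_inner_le_norm _ _
    _ ≤ 1 / (R + 1) * R := by
        gcongr
        exact hR y hy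
    _ ≤ 1 := by
        rw [div_mul_eq_mul_div, one_mul, div_le_one (by positivity)]
        linarith

/-- the bipolar theorem -/
theorem bipolar {K : Set E} {o : E} (hK : Convex ℝ K) (hKc : IsCompact K) (ho : o ∈ K) {w : E}
    (hw : ∀ v ∈ polar K o, ⟪v, w⟫_ℝ ≤ 1) : o + w ∈ K := by
  by_contra hn
  obtain ⟨f, c, h1, h2⟩ := geometric_hahn_banach_closed_point hK hKc.isClosed hn
  set u : E := (InnerProductSpace.toDual ℝ E).symm f with hu
  have hf : ∀ y, f y = ⟪u, y⟫_ℝ := by
    intro y
    rw [hu, InnerProductSpace.toDual_symm_apply]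
  have hc : 0 < c - ⟪u, o⟫_ℝ := by
    have := h1 o ho
    rw [hf] at this
    linarith
  have hv : (c - ⟪u, o⟫_ℝ)⁻¹ • u ∈ polar K o := by
    intro y hy
    rw [real_inner_smul_left, inner_sub_right, inv_mul_le_iff₀ hc, mul_one]
    have := h1 y hy
    rw [hf] at this
    linarith
  have h3 := hw _ hv
  rw [real_inner_smul_left, inv_mul_le_iff₀ hc, mul_one] at h3
  rw [hf, inner_add_right] at h2
  linarith

/-- the gauge of the polar body is the support function -/
theorem gauge_polar {K : Set E} {o : E} (hKc : IsCompact K) (ho : o ∈ interior K) {v y : E}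
    (hy : y ∈ K) (hmax : ∀ x ∈ K, ⟪v, x⟫_ℝ ≤ ⟪v, y⟫_ℝ) : gauge (polar K o) v = ⟪v, y - o⟫_ℝ := by
  have hnhds : polar K o ∈ nhds (0 : E) :=
    mem_interior_iff_mem_nhds.mp (zero_mem_interior hKc ho)
  have h0 : 0 ≤ ⟪v, y - o⟫_ℝ := by
    rw [inner_sub_right]
    linarith [hmax o (interior_subset ho)]
  apply le_antisymm
  · refine le_of_forall_pos_le_add fun ε hε => ?_
    refine gauge_le_of_mem (by linarith) ?_
    have hp : 0 < ⟪v, y - o⟫_ℝ + ε := by linarith
    rw [Set.mem_smul_set_iff_inv_smul_mem₀ hp.ne']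
    intro x hx
    rw [real_inner_smul_left, inv_mul_le_iff₀ hp, mul_one, inner_sub_right]
    have := hmax x hx
    rw [inner_sub_right]
    linarith
  · -- the functional of `y` is at most the gauge
    refine le_of_forall_pos_le_add fun ε hε => ?_
    have hg : gauge (polar K o) v < gauge (polar K o) v + ε := by linarith
    obtain ⟨b, hb0, hb1, hb2⟩ := exists_lt_of_gauge_lt (absorbent_nhds_zero hnhds) hg
    rw [Set.mem_smul_set_iff_inv_smul_mem₀ hb0.ne'] at hb2
    have h3 := hb2 y hy
    rw [real_inner_smul_left, inv_mul_le_iff₀ hb0, mul_one] at h3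
    linarith

end Pool.Agent.T2H83.Polar
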