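import Pool.Agent.TH84.HC.Asym2
import Pool.Agent.H985.Sep

set_option autoImplicit false
set_option linter.unusedSectionVars false

/-!
# The polar bodies of polytopes whose facets have few vertices
-/

namespace Pool.Agent.T2H83.Simp

open Filter Topology
open scoped InnerProductSpace
open Pool.Agent.TH84.HC
open Pool.Agent.PZ871 (E)

/-- `{y | ⟪v, y - o⟫ = 1}` is the affine hull of a facet of `K` -/
def IsFacetNormal {d : ℕ} (K : Set (E d)) (o v : E d) : Prop :=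
  (∀ y ∈ K, ⟪v, y - o⟫_ℝ ≤ 1) ∧
    Submodule.span ℝ {z | ∃ y ∈ K, ⟪v, y - o⟫_ℝ = 1 ∧ z = y - o} = ⊤

variable {d : ℕ}

/-- the polar body of the hull of a finite set -/
theorem polar_hull (X : Finset (E d)) (o : E d) :
    H985.Sep.polar (convexHull ℝ (X : Set (E d))) o =
      {y : E d | ∀ j : Fin X.card, ⟪(X.equivFin.symm j : E d) - o, y⟫_ℝ ≤ (fun _ => (1 : ℝ)) j} := by
  ext v
  constructor
  · intro hv j
    rw [real_inner_comm]
    exact hv _ (subset_convexHull ℝ _ (X.equivFin.symm j).2)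
  · intro hv y hy
    have hconv : Convex ℝ {y : E d | ⟪v, y - o⟫_ℝ ≤ 1} := by
      intro x hx z hz a b ha hb hab
      have e : a • x + b • z - o = a • (x - o) + b • (z - o) := by
        rw [smul_sub, smul_sub]
        have : (a + b) • o = o := by rw [hab, one_smul]
        rw [add_smul] at this
        nth_rewrite 1 [← this]
        abel
      show ⟪v, a • x + b • z - o⟫_ℝ ≤ 1
      rw [e, inner_add_right, real_inner_smul_right, real_inner_smul_right]
      have hx' : ⟪v, x - o⟫_ℝ ≤ 1 := hx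
      have hz' : ⟪v, z - o⟫_ℝ ≤ 1 := hz
      nlinarith
    have hsub : (X : Set (E d)) ⊆ {y : E d | ⟪v, y - o⟫_ℝ ≤ 1} := by
      intro x hx
      have h1 := hv (X.equivFin ⟨x, hx⟩)
      rw [Equiv.symm_apply_apply, real_inner_comm] at h1
      exact h1
    exact convexHull_min hsub hconv hy

/-- the extreme points of the polar body are normals of facets -/
theorem facet_of_extreme (X : Finset (E d)) (o v : E d)
    (hv : v ∈ Set.extremePoints ℝ (H985.Sep.polar (convexHull ℝ (X : Set (E d))) o)) :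
    IsFacetNormal (convexHull ℝ (X : Set (E d))) o v := by
  classical
  have hvP := hv.1
  refine ⟨fun y hy => hvP y hy, ?_⟩
  by_contra hspan
  set S : Set (E d) := {z | ∃ y ∈ convexHull ℝ (X : Set (E d)), ⟪v, y - o⟫_ℝ = 1 ∧ z = y - o}
    with hS
  have hbot : (Submodule.span ℝ S)ᗮ ≠ ⊥ := fun h => hspan (Submodule.orthogonal_eq_bot_iff.1 h)
  obtain ⟨w, hw, hw0⟩ := Submodule.exists_mem_ne_zero_of_ne_bot hbot
  have hwS : ∀ x ∈ X, ⟪v, x - o⟫_ℝ = 1 → ⟪w, x - o⟫_ℝ = 0 := by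
    intro x hx h1
    have hmem : x - o ∈ Submodule.span ℝ S :=
      Submodule.subset_span ⟨x, subset_convexHull ℝ _ hx, h1, rfl⟩
    exact Submodule.inner_left_of_mem_orthogonal hmem hw
  -- a small number
  have hev : ∀ᶠ ε in 𝓝[>] (0 : ℝ), ∀ x ∈ X, ⟪v, x - o⟫_ℝ + ε * |⟪w, x - o⟫_ℝ| ≤ 1 := by
    rw [Finset.eventually_all]
    intro x hx
    rcases eq_or_ne ⟪v, x - o⟫_ℝ 1 with h | h
    · refine Eventually.of_forall fun ε => ?_
      rw [h, hwS x hx h]
      simp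
    · have hlt : ⟪v, x - o⟫_ℝ < 1 := lt_of_le_of_ne (hvP x (subset_convexHull ℝ _ hx)) h
      have hc : Tendsto (fun ε : ℝ => ⟪v, x - o⟫_ℝ + ε * |⟪w, x - o⟫_ℝ|) (𝓝[>] (0 : ℝ))
          (𝓝 (⟪v, x - o⟫_ℝ + 0 * |⟪w, x - o⟫_ℝ|)) :=
        (Continuous.tendsto (by fun_prop) _).mono_left nhdsWithin_le_nhds
      rw [zero_mul, add_zero] at hc
      exact (hc.eventually_lt_const hlt).mono fun ε h => h.le
  obtain ⟨ε, hε, hε0⟩ := (hev.and self_mem_nhdsWithin).exists
  have hε0' : 0 < ε := hε0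
  have key : ∀ σ : ℝ, |σ| = ε → v + σ • w ∈ H985.Sep.polar (convexHull ℝ (X : Set (E d))) o := by
    intro σ hσ
    rw [polar_hull]
    intro j
    have hx := (X.equivFin.symm j).2
    set x : E d := (X.equivFin.symm j : E d) with hxd
    rw [real_inner_comm, inner_add_left, real_inner_smul_left]
    have h1 := hε x hx
    have h2 : σ * ⟪w, x - o⟫_ℝ ≤ ε * |⟪w, x - o⟫_ℝ| := by
      calc σ * ⟪w, x - o⟫_ℝ ≤ |σ * ⟪w, x - o⟫_ℝ| := le_abs_self _
        _ = ε * |⟪w, x - o⟫_ℝ| := by rw [abs_mul, hσ]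
    show _ ≤ (1 : ℝ)
    linarith
  have h1 := key ε (abs_of_pos hε0')
  have h2 := key (-ε) (by rw [abs_neg, abs_of_pos hε0'])
  have h3 : v ∈ openSegment ℝ (v + ε • w) (v + (-ε) • w) := by
    refine ⟨1 / 2, 1 / 2, by norm_num, by norm_num, by norm_num, ?_⟩
    module
  have h4 := (mem_extremePoints.1 hv).2 _ h1 _ h2 h3
  have h5 : ε • w = 0 := by
    have := h4.1
    rwa [add_eq_left] at this
  rcases smul_eq_zero.1 h5 with h | h
  · exact hε0'.ne' h
  · exact hw0 h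

/-- the number of tight inequalities -/
theorem ncard_tight (X : Finset (E d)) (o v : E d) :
    {j : Fin X.card | ⟪(X.equivFin.symm j : E d) - o, v⟫_ℝ = (fun _ => (1 : ℝ)) j}.ncard =
      {x : E d | x ∈ X ∧ ⟪v, x - o⟫_ℝ = 1}.ncard := by
  refine Set.ncard_congr (fun j _ => (X.equivFin.symm j : E d)) ?_ ?_ ?_
  · intro j hj
    refine ⟨(X.equivFin.symm j).2, ?_⟩
    rw [real_inner_comm]
    exact hj
  · intro i j _ _ h
    exact X.equivFin.symm.injective (Subtype.ext h)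
  · rintro x ⟨hx, h1⟩
    refine ⟨X.equivFin ⟨x, hx⟩, ?_, by simp⟩
    show ⟪(X.equivFin.symm (X.equivFin ⟨x, hx⟩) : E d) - o, v⟫_ℝ = 1
    rw [Equiv.symm_apply_apply, real_inner_comm]
    exact h1

/-- the corners of the polar body -/
theorem seen_of_facets (hd : 1 ≤ d) (X : Finset (E d)) (o : E d) (hoX : o ∉ X)
    (A : E d ≃L[ℝ] E d)
    (hA : ∀ x ∈ X, ∀ v : E d, ‖A v‖ ≤ 1 → ⟪v, x - o⟫_ℝ ≤ 1) (m : ℕ) (R : ℝ) (F : Finset (E d))
    (hF : ∀ v, IsFacetNormal (convexHull ℝ (X : Set (E d))) o v → v ∉ F →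
      {x : E d | x ∈ X ∧ ⟪v, x - o⟫_ℝ = 1}.ncard ≤ m ∧ ‖A v‖ ≤ R) :
    ∀ v ∈ Set.extremePoints ℝ (H985.Sep.polar (convexHull ℝ (X : Set (E d))) o), v ∉ F →
      Seen A m R (H985.Sep.polar (convexHull ℝ (X : Set (E d))) o) v := by
  intro v hv hvF
  obtain ⟨h1, h2⟩ := hF v (facet_of_extreme X o v hv) hvF
  have hfr := extreme_frontier hd hv
  rw [polar_hull] at hfr ⊢
  refine poly_seen _ _ (fun j h => ?_) A 0 ?_ hfr ?_ (by rwa [sub_zero])
  · apply hoX
    rw [← sub_eq_zero.1 h]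
    exact (X.equivFin.symm j).2
  · intro z hz j
    rw [sub_zero] at hz
    rw [real_inner_comm]
    exact hA _ (X.equivFin.symm j).2 z hz
  · rw [ncard_tight]
    exact h1

end Pool.Agent.T2H83.Simp
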