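import Pool.Agent.Results.MP_eba1ef_gt.AsymmetricThinSlabs
import Pool.Agent.T2H83.Zon.Polar

set_option autoImplicit false

/-!
# MP_5e7226_co: bodies touched by most hyperplanes at thin points, and round bodies

Let `K` be a convex body in `ℝ^d`, symmetric or not, `o` an interior point, and `P` the polar body of
`K` with respect to `o`.  A point `y` of `K` is called `τ`-thin if `|⟪v, y - o⟫| ≥ 1/4` for at most
the fraction `τ` of the vectors `v` of `P`.

1. If, for at least the fraction `β` of the vectors `v` of `P`, the maximum of `⟪v, ·⟫` on `K` is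
   attained at a `τ`-thin point, then the faces of `K` can be separated from `o` by at most
   `1 + 12 d log(2d²+2d+1) 2^d τ^(β/60)` hyperplanes, and by less than `2^d` if
   `17 d log(2d²+2d+1) τ^(β/60) ≤ 1`.
2. If `R² ⨍ ⟪v, y - o⟫² dv ≤ 1` for all `y ∈ K`, the average being over `v ∈ P` (that is, if `K - o`
   is contained in `1/R` times the ellipsoid `{z : ⨍_P ⟪v, z⟫² dv ≤ 1}`), then
   `1 + 13 d log(2d²+2d+1) 2^d e^(-R/7680)` hyperplanes suffice, and less than `2^d` if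
   `R ≥ 7680 log(19 d log(2d²+2d+1))`.  (For a ball and its centre `R = √(d+2)`.)

The proof.  By the bipolar theorem the functionals which are at most one on `P` are the
`⟪·, y - o⟫`, `y ∈ K`, and the gauge of `P` at `v` is the maximum of `⟪v, y - o⟫`, `y ∈ K`.  So the
covering theorem `MP_eba1ef_gt.AsymmetricThinSlabs` of the starting files can be applied to `P`, and
every translate of the interior of `P` gives a separating hyperplane (`Pool/Agent/H985/Sep.lean`).
-/

namespace Pool.Agent.T2H83.Zon.ThinPoints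

open MeasureTheory
open scoped InnerProductSpace

/-- `K` and `o` are separated by `H`: every face of `K` (the set of the points of `K` at which a
functional `⟪u, ·⟫`, `u ≠ 0`, is maximal on `K`) is strictly separated from `o` by one of the
hyperplanes `{x | ⟪h.1, x⟫ = h.2}` with `h ∈ H`. -/
def SeparatesFaces {d : ℕ} (K : Set (EuclideanSpace ℝ (Fin d))) (o : EuclideanSpace ℝ (Fin d))
    (H : Finset (EuclideanSpace ℝ (Fin d) × ℝ)) : Prop :=
  (∀ h ∈ H, h.1 ≠ 0) ∧
    ∀ u x₀ : EuclideanSpace ℝ (Fin d), u ≠ 0 → x₀ ∈ K → (∀ y ∈ K, ⟪u, y⟫_ℝ ≤ ⟪u, x₀⟫_ℝ) →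
      ∃ h ∈ H, ⟪h.1, o⟫_ℝ < h.2 ∧ ∀ x ∈ K, ⟪u, x⟫_ℝ = ⟪u, x₀⟫_ℝ → h.2 < ⟪h.1, x⟫_ℝ

/-- the polar body of `K` with respect to `o` -/
def polarBody {d : ℕ} (K : Set (EuclideanSpace ℝ (Fin d))) (o : EuclideanSpace ℝ (Fin d)) :
    Set (EuclideanSpace ℝ (Fin d)) := {v | ∀ y ∈ K, ⟪v, y - o⟫_ℝ ≤ 1}

/-- `y` is a `τ`-thin point of `K`: `|⟪v, y - o⟫| ≥ 1/4` for at most the fraction `τ` of the vectors
`v` of the polar body. -/
def IsThinPoint {d : ℕ} (K : Set (EuclideanSpace ℝ (Fin d))) (o : EuclideanSpace ℝ (Fin d))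
    (τ : ℝ) (y : EuclideanSpace ℝ (Fin d)) : Prop :=
  y ∈ K ∧ (volume {v ∈ polarBody K o | 1 / 4 ≤ |⟪v, y - o⟫_ℝ|}).toReal ≤
    τ * (volume (polarBody K o)).toReal

/-- the vectors `v` of the polar body for which the maximum of `⟪v, ·⟫` on `K` is attained at a
`τ`-thin point -/
def thinNormals {d : ℕ} (K : Set (EuclideanSpace ℝ (Fin d))) (o : EuclideanSpace ℝ (Fin d))
    (τ : ℝ) : Set (EuclideanSpace ℝ (Fin d)) :=
  {v ∈ polarBody K o | ∃ y, IsThinPoint K o τ y ∧ ∀ x ∈ K, ⟪v, x⟫_ℝ ≤ ⟪v, y⟫_ℝ}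

/-- The average over the polar body of `⟪v, y - o⟫²` is at most `1 / R²` for all `y ∈ K`. -/
def IsRound {d : ℕ} (K : Set (EuclideanSpace ℝ (Fin d))) (o : EuclideanSpace ℝ (Fin d)) (R : ℝ) :
    Prop :=
  ∀ y ∈ K, R ^ 2 * (⨍ v in polarBody K o, ⟪v, y - o⟫_ℝ ^ 2) ≤ 1

/-- **Main theorem.** -/
theorem result (d : ℕ) (hd : 2 ≤ d) (K : Set (EuclideanSpace ℝ (Fin d)))
    (hK : Convex ℝ K) (hKc : IsCompact K) (o : EuclideanSpace ℝ (Fin d)) (ho : o ∈ interior K) :
    -- thin points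
    (∀ τ β : ℝ, 0 < τ → 0 < β → β ≤ 1 →
      β * (volume (polarBody K o)).toReal ≤ (volume (thinNormals K o τ)).toReal →
      ∃ H : Finset (EuclideanSpace ℝ (Fin d) × ℝ), SeparatesFaces K o H ∧
        (H.card : ℝ) ≤ 1 + 12 * d * Real.log (2 * d ^ 2 + 2 * d + 1) * 2 ^ d * τ ^ (β / 60) ∧
        (17 * d * Real.log (2 * d ^ 2 + 2 * d + 1) * τ ^ (β / 60) ≤ 1 → H.card < 2 ^ d)) ∧
    -- round bodies
    (∀ R : ℝ, 0 < R → IsRound K o R →
      ∃ H : Finset (EuclideanSpace ℝ (Fin d) × ℝ), SeparatesFaces K o H ∧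
        (H.card : ℝ) ≤ 1 + 13 * d * Real.log (2 * d ^ 2 + 2 * d + 1) * 2 ^ d *
          Real.exp (-(R / 7680)) ∧
        (7680 * Real.log (19 * d * Real.log (2 * d ^ 2 + 2 * d + 1)) ≤ R → H.card < 2 ^ d)) := by
  set P := polarBody K o with hP
  have hPc : IsCompact P := H985.Sep.isCompact_polar ho
  have h0 : (0 : EuclideanSpace ℝ (Fin d)) ∈ interior P := T2H83.Polar.zero_mem_interior hKc ho
  obtain ⟨r1, r2, r3, -⟩ := MP_eba1ef_gt.AsymmetricThinSlabs.result d hd P
    (H985.Sep.convex_polar K o) hPc h0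
  have sep : ∀ T : Finset (EuclideanSpace ℝ (Fin d)),
      P ⊆ ⋃ t ∈ T, (fun x => t + x) '' interior P →
      ∃ H : Finset (EuclideanSpace ℝ (Fin d) × ℝ), SeparatesFaces K o H ∧ H.card ≤ T.card := by
    intro T hT
    obtain ⟨H, h4, h5, h6⟩ := H985.Sep.separate ho T hT
    exact ⟨H, ⟨h5, h6⟩, h4⟩
  constructor
  · intro τ β hτ hβ hβ1 hvol
    obtain ⟨T, h1, h2, h3⟩ := r1 τ β hτ hβ hβ1 (by
      refine hvol.trans (ENNReal.toReal_mono ?_ (measure_mono ?_))
      · refine ne_top_of_le_ne_top hPc.measure_lt_top.ne (measure_mono ?_)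
        exact fun v hv => hv.1
      · rintro v ⟨hvP, y, ⟨hy, hthin⟩, hmax⟩
        refine ⟨hvP, innerSL ℝ (y - o), ⟨fun x hx => ?_, ?_⟩, ?_⟩
        · rw [innerSL_apply_apply, real_inner_comm]
          exact hx y hy
        · have e : {z ∈ P | 1 / 4 ≤ |innerSL ℝ (y - o) z|} =
              {v ∈ P | 1 / 4 ≤ |⟪v, y - o⟫_ℝ|} := by
            ext z
            rw [Set.mem_sep_iff, Set.mem_sep_iff, innerSL_apply_apply, real_inner_comm]
          rw [e]
          exact hthin
        · rw [innerSL_apply_apply, real_inner_comm]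
          exact (T2H83.Polar.gauge_polar hKc ho hy hmax).symm)
    obtain ⟨H, h4, h5⟩ := sep T h1
    exact ⟨H, h4, le_trans (by exact_mod_cast h5) h2, fun h => h5.trans_lt (h3 h)⟩
  · intro R hR hround
    have hflat := r3 R hR (by
      intro φ hφ
      set w : EuclideanSpace ℝ (Fin d) := (InnerProductSpace.toDual ℝ _).symm φ with hw
      have hf : ∀ x, φ x = ⟪x, w⟫_ℝ := by
        intro x
        rw [real_inner_comm, hw, InnerProductSpace.toDual_symm_apply]
      have h1 : o + w ∈ K := by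
        refine T2H83.Polar.bipolar hK hKc (interior_subset ho) fun v hv => ?_
        rw [← hf]
        exact hφ v hv
      have h2 := hround _ h1
      simp only [add_sub_cancel_left] at h2
      simp only [hf]
      exact h2)
    obtain ⟨T, h1, h2, h3⟩ := r2 (1 / R) (by positivity) hflat
    have e : 1 / (7680 * (1 / R)) = R / 7680 := by field_simp
    rw [e] at h2 h3
    obtain ⟨H, h4, h5⟩ := sep T h1
    refine ⟨H, h4, le_trans (by exact_mod_cast h5) h2, fun hRL => h5.trans_lt (h3 ?_)⟩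
    have hd' : (2 : ℝ) ≤ d := by exact_mod_cast hd
    have hlog : 0 < Real.log (2 * (d : ℝ) ^ 2 + 2 * d + 1) := Real.log_pos (by nlinarith)
    set L : ℝ := 19 * d * Real.log (2 * d ^ 2 + 2 * d + 1) with hL
    have hL0 : 0 < L := by positivity
    calc L * Real.exp (-(R / 7680)) ≤ L * Real.exp (-Real.log L) := by
          gcongr
          linarith
      _ = 1 := by rw [Real.exp_neg, Real.exp_log hL0, mul_inv_cancel₀ hL0.ne']

end Pool.Agent.T2H83.Zon.ThinPoints
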